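import Pool.Agent.L0h35.SvDefs3

set_option autoImplicit false

/-!
# A chain of sections in a group with a small normal subgroup
-/

namespace Pool.Agent.L0h64.Sv

open Finset Module Pool.Agent.L0h35.Sv
open scoped commutatorElement

theorem Good.mono' {H : Type} [Group H] [Fintype H] {a b : ℝ} (hab : a ≤ b)
    (h : Pool.Agent.N726.BG.Good H a) : Pool.Agent.N726.BG.Good H b := by
  obtain ⟨F, iF, J, hJ, hc⟩ := h
  refine ⟨F, iF, J, hJ, hc.trans ?_⟩
  exact mul_le_mul_of_nonneg_right hab (Nat.cast_nonneg _)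

/-- The order of an intersection. -/
theorem card_inf_mul {G : Type} [Group G] [Finite G] (H K : Subgroup G) :
    Nat.card H * Nat.card K ≤ Nat.card (H ⊓ K : Subgroup G) * Nat.card G := by
  have h1 : (K.subgroupOf H).index ≤ K.index := by
    have h := Subgroup.relIndex_le_of_le_right (H := K) (le_top : H ≤ ⊤)
      (by
        have : Finite ((⊤ : Subgroup G) ⧸ K.subgroupOf ⊤) := inferInstance
        exact Subgroup.index_ne_zero_of_finite)
    rw [Subgroup.relIndex_top_right] at h
    exact h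
  have h2 : Nat.card (H ⊓ K : Subgroup G) * (K.subgroupOf H).index = Nat.card H := by
    have e : Nat.card (K.subgroupOf H) = Nat.card (H ⊓ K : Subgroup G) := by
      rw [← Subgroup.inf_subgroupOf_left]
      exact Nat.card_congr (Subgroup.subgroupOfEquivOfLe inf_le_left).toEquiv
    rw [← e]
    exact Subgroup.card_mul_index _
  have h3 : Nat.card K * K.index = Nat.card G := Subgroup.card_mul_index _
  rw [← h2, ← h3]
  nlinarith [Nat.mul_le_mul_left (Nat.card (H ⊓ K : Subgroup G) * Nat.card K) h1]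

/-- The partial intersections. -/
def HI {G : Type} [Group G] (Hf : ℕ → Subgroup G) : ℕ → Subgroup G
  | 0 => ⊤
  | k + 1 => HI Hf k ⊓ Hf k

theorem HI_le {G : Type} [Group G] (Hf : ℕ → Subgroup G) (m : ℕ) :
    ∀ i < m, HI Hf m ≤ Hf i := by
  induction m with
  | zero => intro i hi; omega
  | succ m ih =>
    intro i hi
    rcases Nat.lt_succ_iff_lt_or_eq.1 hi with h | h
    · exact inf_le_left.trans (ih i h)
    · subst h; exact inf_le_right

theorem HI_card {G : Type} [Group G] [Finite G] (E : ℕ) (U Hf : ℕ → Subgroup G)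
    (hc : ∀ i, Nat.card G * Nat.card (U (i + 1)) ^ E ≤ Nat.card (Hf i) * Nat.card (U i) ^ E)
    (k : ℕ) : Nat.card G * Nat.card (U k) ^ E ≤ Nat.card (HI Hf k) * Nat.card (U 0) ^ E := by
  induction k with
  | zero =>
    change _ ≤ Nat.card (⊤ : Subgroup G) * _
    rw [Subgroup.card_top]
  | succ k ih =>
    have h1 := card_inf_mul (HI Hf k) (Hf k)
    have h2 := Nat.mul_le_mul ih (hc k)
    have h3 : 0 < Nat.card G * Nat.card (U k) ^ E := by
      have : 0 < Nat.card G := Nat.card_pos
      have : 0 < Nat.card (U k) := Nat.card_pos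
      positivity
    refine Nat.le_of_mul_le_mul_left ?_ h3
    calc Nat.card G * Nat.card (U k) ^ E * (Nat.card G * Nat.card (U (k + 1)) ^ E)
        ≤ (Nat.card (HI Hf k) * Nat.card (U 0) ^ E) *
          (Nat.card (Hf k) * Nat.card (U k) ^ E) := h2
      _ = (Nat.card (HI Hf k) * Nat.card (Hf k)) * (Nat.card (U 0) ^ E *
          Nat.card (U k) ^ E) := by ring
      _ ≤ (Nat.card (HI Hf k ⊓ Hf k : Subgroup G) * Nat.card G) * (Nat.card (U 0) ^ E *
          Nat.card (U k) ^ E) := Nat.mul_le_mul_right _ h1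
      _ = Nat.card G * Nat.card (U k) ^ E *
          (Nat.card (HI Hf (k + 1)) * Nat.card (U 0) ^ E) := by
        change _ = Nat.card G * Nat.card (U k) ^ E *
          (Nat.card (HI Hf k ⊓ Hf k : Subgroup G) * Nat.card (U 0) ^ E)
        ring

/-- The subgroups of the chain. -/
def TT {G : Type} [Group G] (r : ℕ) (T : ℕ → ℕ → Subgroup G) (k : ℕ) : Subgroup G :=
  T (k / r) (k % r)

theorem TT_succ {G : Type} [Group G] (r : ℕ) (T : ℕ → ℕ → Subgroup G)
    (h : ∀ i, T i r = T (i + 1) 0) (k : ℕ) : TT r T (k + 1) = T (k / r) (k % r + 1) := by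
  unfold TT
  rcases Nat.eq_zero_or_pos r with hr | hr
  · subst hr
    simp
  · have hlt := Nat.mod_lt k hr
    have hdm := Nat.div_add_mod k r
    rcases Nat.lt_or_ge (k % r + 1) r with h1 | h1
    · have e1 : (k + 1) / r = k / r := by
        rw [Nat.div_eq_iff hr]
        constructor
        · rw [mul_comm]; omega
        · rw [mul_comm]; omega
      have e2 : (k + 1) % r = k % r + 1 := by
        have := Nat.div_add_mod (k + 1) r
        rw [e1] at this
        omega
      rw [e1, e2]
    · have h2 : k % r + 1 = r := by omega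
      have e0 : k + 1 = r * (k / r + 1) := by
        rw [Nat.mul_add]
        omega
      have e1 : (k + 1) / r = k / r + 1 := by
        rw [e0, Nat.mul_div_cancel_left _ hr]
      have e2 : (k + 1) % r = 0 := by
        rw [e0, Nat.mul_mod_right]
      rw [e1, e2, h2, h]

/-- The chain in the group `H`. -/
def CC {G : Type} [Group G] (H : Subgroup G) (K : ℕ → Subgroup G) : ℕ → Subgroup H
  | 0 => ⊤
  | k + 1 => (K k).subgroupOf H

theorem normal_of_comm {G : Type} [Group G] {K : Subgroup G} (h : ⁅K, (⊤ : Subgroup G)⁆ ≤ K) :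
    K.Normal := by
  constructor
  intro k hk g
  have h1 : ⁅k, g⁆ ∈ K := h (Subgroup.commutator_mem_commutator hk (Subgroup.mem_top g))
  have h2 : g * k * g⁻¹ = ⁅k, g⁆⁻¹ * k := by
    rw [commutatorElement_def]
    group
  rw [h2]
  exact K.mul_mem (K.inv_mem h1) hk

theorem stJJ_of (hGd : StGd) : StJJ := by
  intro q E r hKL m p _ G _ _ V U hGV hGp hU0 hUm hUn hUd hUp hUU hUq n s hVs hGs hns
  have hp : p.Prime := Fact.out
  have hK := fun i : ℕ => hKL p G (U i) (U (i + 1)) (hUn i) (hUn (i + 1)) (hUd i) (hUp i)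
    (hUU i) (hUq i)
  choose Hf T hT0 hTr hTd hTc hcard using hK
  have hTa : ∀ i j j', j ≤ j' → T i j' ≤ T i j := by
    intro i j j' hj
    induction j', hj using Nat.le_induction with
    | base => exact le_rfl
    | succ j' _ ih => exact (hTd i j').trans ih
  have hTU : ∀ i j, T i j ≤ U i := by
    intro i j
    rw [← hT0 i]
    exact hTa i 0 j (Nat.zero_le _)
  have hUbot : ∀ i, m ≤ i → U i = ⊥ := by
    intro i hi
    induction i, hi using Nat.le_induction with
    | base => exact hUm
    | succ i _ ih => exact le_bot_iff.1 ((hUd i).trans ih.le)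
  have hr0 : r = 0 → V = ⊥ := by
    intro hr
    have h1 : ∀ i, U (i + 1) = U i := by
      intro i
      rw [← hT0 i, ← hTr i, hr]
    have h2 : ∀ i, U i = U 0 := by
      intro i
      induction i with
      | zero => rfl
      | succ i ih => rw [h1, ih]
    rw [← hU0, ← h2 m, hUm]
  set H : Subgroup G := HI Hf m with hHdef
  have hHf : ∀ i < m, H ≤ Hf i := HI_le Hf m
  have hcH : Nat.card G ≤ Nat.card H * Nat.card V ^ E := by
    have := HI_card E U Hf hcard m
    rw [hUm, hU0] at this
    simpa using this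
  -- the chain
  have hsucc : ∀ k, TT r T (k + 1) = T (k / r) (k % r + 1) :=
    TT_succ r T fun i => by rw [hTr, hT0]
  have hTT0 : TT r T 0 = V := by
    unfold TT
    rw [Nat.zero_div, Nat.zero_mod, hT0, hU0]
  have hTTbot : ∀ k, (r = 0 ∨ m ≤ k / r) → TT r T k = ⊥ := by
    intro k hk
    rw [← le_bot_iff]
    unfold TT
    refine (hTU _ _).trans ?_
    rcases hk with h | h
    · have e : k / r = 0 := by rw [h, Nat.div_zero]
      rw [e, hU0, hr0 h]
    · rw [hUbot _ h]
  have hTTdec : ∀ k, TT r T (k + 1) ≤ TT r T k := by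
    intro k
    rw [hsucc]
    exact hTd _ _
  have hTTend : TT r T (m * r) = ⊥ := by
    apply hTTbot
    rcases Nat.eq_zero_or_pos r with h | h
    · exact Or.inl h
    · right
      rw [Nat.mul_div_cancel _ h]
  have hTTcomm : ∀ k, ∀ x ∈ TT r T k, ∀ h ∈ H, ⁅x, h⁆ ∈ TT r T (k + 1) := by
    intro k x hx h hh
    by_cases hk : r = 0 ∨ m ≤ k / r
    · rw [hTTbot k hk, Subgroup.mem_bot] at hx
      rw [hx, commutatorElement_one_left]
      exact Subgroup.one_mem _
    · rw [not_or, not_le] at hk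
      rw [hsucc]
      exact hTc (k / r) (k % r) (Nat.mod_lt _ (Nat.pos_of_ne_zero hk.1))
        (Subgroup.commutator_mem_commutator hx (hHf _ hk.2 hh))
  have hTTpow : ∀ k, ∀ x ∈ TT r T k, x ^ p ∈ TT r T (k + 1) := by
    intro k x hx
    by_cases hk : r = 0
    · rw [hTTbot k (Or.inl hk), Subgroup.mem_bot] at hx
      rw [hx, one_pow]
      exact Subgroup.one_mem _
    · rw [hsucc]
      have h1 : x ^ p ∈ U (k / r + 1) := hUp _ x (hTU _ _ hx)
      rw [← hTr] at h1
      exact hTa _ _ _ (Nat.mod_lt _ (Nat.pos_of_ne_zero hk)) h1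
  set C : ℕ → Subgroup H := CC H (TT r T) with hC
  have hC0 : C 0 = ⊤ := rfl
  have hCs : ∀ k, C (k + 1) = (TT r T k).subgroupOf H := fun k => rfl
  have hCdec : ∀ i, C (i + 1) ≤ C i := by
    intro i
    rcases i with _ | k
    · rw [hC0]; exact le_top
    · rw [hCs, hCs]
      intro x hx
      rw [Subgroup.mem_subgroupOf] at hx ⊢
      exact hTTdec k hx
  have hCcomm : ∀ i, ⁅C i, (⊤ : Subgroup H)⁆ ≤ C (i + 1) := by
    intro i
    rw [Subgroup.commutator_le]
    intro x hx y _
    rcases i with _ | k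
    · rw [hCs, Subgroup.mem_subgroupOf, hTT0]
      exact hGV (Subgroup.commutator_mem_commutator (Subgroup.mem_top (x : G))
        (Subgroup.mem_top (y : G)))
    · rw [hCs, Subgroup.mem_subgroupOf] at hx ⊢
      exact hTTcomm k _ hx _ y.2
  have hchain : Chain p (⊤ : Subgroup H) (m * r + 1) C := by
    refine ⟨hC0, ?_, ?_, hCdec, ?_, hCcomm⟩
    · rw [hCs, hTTend, Subgroup.bot_subgroupOf]
    · intro i
      exact normal_of_comm ((hCcomm i).trans (hCdec i))
    · intro i c hc
      rcases i with _ | k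
      · rw [hCs, Subgroup.mem_subgroupOf, hTT0]
        exact hGp _
      · rw [hCs, Subgroup.mem_subgroupOf] at hc ⊢
        exact hTTpow k _ hc
  -- the orders
  have hHG : Nat.card H ∣ p ^ (n + s) := hGs ▸ Subgroup.card_subgroup_dvd_card H
  have hCpow : ∀ j, ∃ e, Nat.card (C j) = p ^ e := by
    intro j
    have h1 : Nat.card (C j) ∣ p ^ (n + s) := (Subgroup.card_subgroup_dvd_card (C j)).trans hHG
    obtain ⟨e, _, he⟩ := (Nat.dvd_prime_pow hp).1 h1
    exact ⟨e, he⟩
  choose e he using hCpow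
  have hemono : ∀ j, e (j + 1) ≤ e j := by
    intro j
    have h1 : Nat.card (C (j + 1)) ∣ Nat.card (C j) := Subgroup.card_dvd_of_le (hCdec j)
    rw [he, he] at h1
    exact (Nat.pow_dvd_pow_iff_le_right hp.one_lt).1 h1
  have he1 : e 1 ≤ s := by
    have h1 : Nat.card (C 1) ≤ Nat.card V := by
      rw [show (1 : ℕ) = 0 + 1 from rfl, hCs, hTT0]
      exact Nat.card_le_card_of_injective
        (fun x : V.subgroupOf H => (⟨(x.1 : G), Subgroup.mem_subgroupOf.1 x.2⟩ : V))
        (fun x y hxy => Subtype.ext (Subtype.ext (congrArg (fun z : V => (z : G)) hxy)))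
    rw [he, hVs] at h1
    exact (Nat.pow_le_pow_iff_right hp.one_lt).1 h1
  have heL : e (m * r + 1) = 0 := by
    have h1 := he (m * r + 1)
    rw [hchain.2.1, Subgroup.card_bot] at h1
    have : p ^ (e (m * r + 1)) = p ^ 0 := by rw [← h1, pow_zero]
    exact Nat.pow_right_injective hp.two_le this
  set d : ℕ → ℕ := fun i => e i - e (i + 1) with hd
  have hdi : ∀ i, e i = d i + e (i + 1) := by
    intro i
    have := hemono i
    simp only [hd]
    omega
  have hdcard : ∀ i < m * r + 1, Nat.card (C i) = p ^ d i * Nat.card (C (i + 1)) := by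
    intro i _
    rw [he, he, ← pow_add, ← hdi i]
  have hsum : ∀ k, ∑ i ∈ range k, d (i + 1) + e (k + 1) = e 1 := by
    intro k
    induction k with
    | zero => simp
    | succ k ih =>
      rw [sum_range_succ, ← ih, hdi (k + 1)]
      ring
  have hsum' : ∑ i ∈ range (m * r), d (i + 1) ≤ s := by
    have := hsum (m * r)
    omega
  have he0 : Nat.card H = p ^ e 0 := by
    rw [← he 0, hC0, Subgroup.card_top]
  have hd0 : n ≤ d 0 + E * s := by
    have h2 := hcH
    rw [hGs, he0, hVs, ← pow_mul, ← pow_add] at h2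
    have h3 := (Nat.pow_le_pow_iff_right hp.one_lt).1 h2
    have h4 := hdi 0
    have h5 : s * E = E * s := mul_comm _ _
    simp only [zero_add] at h4
    omega
  have hpp : 1 ≤ (2 * p) ^ (m * r) := Nat.one_le_pow _ _ (by have := hp.pos; omega)
  -- the numerical condition
  have hnum : 100 * ((E + 1) * ((2 * p) ^ (m * r) * s)) ≤ n := by
    refine le_trans ?_ hns
    have h1 : (2 * p) ^ (m * r) ≤ (2 * p) ^ (r * m + 1) :=
      Nat.pow_le_pow_right (by have := hp.pos; omega) (by rw [mul_comm m r]; omega)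
    calc 100 * ((E + 1) * ((2 * p) ^ (m * r) * s)) = 100 * (E + 1) * (2 * p) ^ (m * r) * s := by
          ring
      _ ≤ 100 * (E + 1) * (2 * p) ^ (r * m + 1) * s :=
          Nat.mul_le_mul_right _ (Nat.mul_le_mul_left _ h1)
  obtain ⟨w, hw⟩ : ∃ w, w = (2 * p) ^ (m * r) * s := ⟨_, rfl⟩
  have hsw : s ≤ w := by rw [hw]; exact Nat.le_mul_of_pos_left _ hpp
  rw [← hw] at hnum
  have hEw : E * s ≤ E * w := Nat.mul_le_mul_left _ hsw
  have hnum' : 100 * (E * w) + 100 * w ≤ n := by
    have : 100 * ((E + 1) * w) = 100 * (E * w) + 100 * w := by ring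
    omega
  have hbig : 20 * ∑ i ∈ range (m * r), (2 * p) ^ (i + 1) * d (i + 1) ≤ d 0 := by
    have h1 : ∑ i ∈ range (m * r), (2 * p) ^ (i + 1) * d (i + 1) ≤
        ∑ i ∈ range (m * r), (2 * p) ^ (m * r) * d (i + 1) := by
      refine sum_le_sum fun i hi => Nat.mul_le_mul_right _ ?_
      refine Nat.pow_le_pow_right (by have := hp.pos; omega) ?_
      have := mem_range.1 hi
      omega
    rw [← mul_sum] at h1
    have h2 : (2 * p) ^ (m * r) * ∑ i ∈ range (m * r), d (i + 1) ≤ w := by
      rw [hw]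
      exact Nat.mul_le_mul_left _ hsum'
    omega
  have h5 : n ≤ 2 * d 0 := by omega
  have hle : Real.exp (-(d 0 : ℝ) / 25) ≤ Real.exp (-(n : ℝ) / 50) := by
    refine Real.exp_le_exp.2 ?_
    have h6 : (n : ℝ) ≤ 2 * d 0 := by exact_mod_cast h5
    linarith
  have iF : Fintype H := Fintype.ofFinite H
  refine ⟨H, inferInstance, iF, H.subtype, H.subtype_injective, fun N => ?_⟩
  have hg := hGd p H (m * r) C hchain d hdcard hbig N
  exact Good.mono' (pow_le_pow_left₀ (Real.exp_pos _).le hle _) hg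

end Pool.Agent.L0h64.Sv
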