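import Pool.Agent.L0h64.Sv.GD
import Pool.Agent.L0h64.Sv.JJ
import Pool.Agent.L0h35.SvC
import Pool.Agent.L0h35.SvD
import Pool.Agent.L0h35.SvN

/-! The modules 3GD and 3JJ without hypotheses. -/

set_option autoImplicit false

namespace Pool.Agent.L0h64.Sv

open Pool.Agent.L0h35.Sv

theorem stGd : StGd := stGd_of stC stD stN

theorem stJJ : StJJ := stJJ_of stGd

end Pool.Agent.L0h64.Sv
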