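import Pool.Agent.L0h35.SvDefs3
import Pool.Agent.L0h35.SvF

set_option autoImplicit false

/-!
# Isotropic right ideals from a chain
-/

namespace Pool.Agent.L0h64.Sv

open Finset Module Pool.Agent.L0h35.Sv Pool.Agent.L0h35.Sv.SF

section pw

variable {G : Type} [Group G] (κ : Type)

/-- the power of a subgroup -/
def pk (K : Subgroup G) : Subgroup (κ → G) := Subgroup.pi Set.univ (fun _ => K)

variable {κ}

lemma mem_pk {K : Subgroup G} {f : κ → G} : f ∈ pk κ K ↔ ∀ t, f t ∈ K := by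
  unfold pk
  rw [Subgroup.mem_pi]
  simp

lemma card_pk [Fintype κ] (K : Subgroup G) : Nat.card (pk κ K) = Nat.card K ^ Fintype.card κ := by
  have e : pk κ K ≃ (κ → K) :=
    { toFun := fun f t => ⟨f.1 t, mem_pk.1 f.2 t⟩
      invFun := fun f => ⟨fun t => (f t).1, mem_pk.2 fun t => (f t).2⟩
      left_inv := fun f => rfl
      right_inv := fun f => rfl }
  rw [Nat.card_congr e, Nat.card_fun, Nat.card_eq_fintype_card (α := κ)]

lemma pk_normal {K : Subgroup G} (h : K.Normal) : (pk κ K).Normal :=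
  ⟨fun f hf g => mem_pk.2 fun t => h.conj_mem (f t) (mem_pk.1 hf t) (g t)⟩

lemma pk_mono {K K' : Subgroup G} (h : K ≤ K') : pk κ K ≤ pk κ K' :=
  fun _ hf => mem_pk.2 fun t => h (mem_pk.1 hf t)

lemma pk_comm {K K' K'' : Subgroup G} (h : ⁅K, K'⁆ ≤ K'') : ⁅pk κ K, pk κ K'⁆ ≤ pk κ K'' := by
  rw [Subgroup.commutator_le]
  intro f hf g hg
  exact mem_pk.2 fun t =>
    h (Subgroup.commutator_mem_commutator (mem_pk.1 hf t) (mem_pk.1 hg t))

lemma pk_bot : pk κ (⊥ : Subgroup G) = ⊥ := by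
  ext f
  rw [mem_pk, Subgroup.mem_bot]
  simp [Subgroup.mem_bot, funext_iff]

lemma chain_pk {p : ℕ} {H : Subgroup G} {L : ℕ} {C : ℕ → Subgroup G} (h : Chain p H L C) :
    Chain p (pk κ H) L (fun i => pk κ (C i)) := by
  obtain ⟨h1, h2, h3, h4, h5, h6⟩ := h
  refine ⟨?_, ?_, fun i => pk_normal (h3 i), fun i => pk_mono (h4 i),
    fun i c hc => mem_pk.2 fun t => h5 i _ (mem_pk.1 hc t), fun i => pk_comm (h6 i)⟩
  · simp only [h1]
  · simp only [h2, pk_bot]

end pw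

section ideal

variable {F : Type} [Field F] {Γ : Type} [Group Γ] [Fintype Γ]

/-- functions as elements of the group algebra -/
noncomputable def ev (F : Type) [Field F] (Γ : Type) [Fintype Γ] :
    (Γ → F) ≃ₗ[F] MonoidAlgebra F Γ :=
  (MonoidAlgebra.basis Γ F).equivFun.symm

lemma ev_apply (u : Γ → F) : ev F Γ u = ∑ g, u g • MonoidAlgebra.of F Γ g := by
  rw [ev, Basis.equivFun_symm_apply]
  refine sum_congr rfl fun g _ => ?_
  rw [MonoidAlgebra.basis_apply]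
  rfl

lemma ev_shift (u : Γ → F) (g : Γ) :
    ev F Γ (fun h => u (h * g)) = ev F Γ u * MonoidAlgebra.of F Γ g⁻¹ := by
  rw [ev_apply, ev_apply, sum_mul]
  refine Fintype.sum_equiv (Equiv.mulRight g) _ _ fun h => ?_
  rw [Equiv.coe_mulRight, smul_mul_assoc, ← map_mul, mul_inv_cancel_right]

lemma lam_ev (u v w : Γ → F) :
    lam1 F Γ (ev F Γ u * ev F Γ v * ev F Γ w) = ∑ g, ∑ h, u g * v h * w (g * h)⁻¹ := by
  classical
  rw [ev_apply u, ev_apply v, ev_apply w, sum_mul_sum, sum_mul, map_sum]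
  refine sum_congr rfl fun g _ => ?_
  rw [sum_mul, map_sum]
  refine sum_congr rfl fun h _ => ?_
  rw [mul_sum, map_sum]
  rw [sum_eq_single (g * h)⁻¹]
  · rw [smul_mul_smul_comm, smul_mul_smul_comm, ← map_mul, ← map_mul, map_smul, lam1_of,
      if_pos (mul_inv_cancel _), smul_eq_mul, mul_one]
  · intro k _ hk
    rw [smul_mul_smul_comm, smul_mul_smul_comm, ← map_mul, ← map_mul, map_smul, lam1_of,
      if_neg, smul_zero]
    intro h1
    exact hk (eq_inv_of_mul_eq_one_right h1)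
  · intro h1
    exact absurd (mem_univ _) h1

/-- the right ideal of the functions in `Aug` -/
noncomputable def JJ (F : Type) [Field F] {Γ : Type} [Group Γ] [Fintype Γ] (H : Subgroup Γ)
    (m : ℕ) : Submodule F (Γ → F) :=
  (Aug F Γ H m).map ((ev F Γ).symm : MonoidAlgebra F Γ →ₗ[F] (Γ → F))

lemma mem_JJ {H : Subgroup Γ} {m : ℕ} {u : Γ → F} : u ∈ JJ F H m ↔ ev F Γ u ∈ Aug F Γ H m := by
  unfold JJ
  rw [Submodule.mem_map_equiv, LinearEquiv.symm_symm]

lemma finrank_JJ {H : Subgroup Γ} {m : ℕ} :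
    finrank F (JJ F H m) = finrank F (Aug F Γ H m) :=
  LinearEquiv.finrank_map_eq _ _

lemma of_mem_aug (H : Subgroup Γ) (g : Γ) : MonoidAlgebra.of F Γ g ∈ Aug F Γ H 0 := by
  apply Submodule.subset_span
  refine ⟨g, [], rfl, fun h hh => absurd hh (by simp), ?_⟩
  simp

lemma iso_JJ {H : Subgroup Γ} (hH : H.Normal) {m : ℕ}
    (hz : ∀ l : List Γ, l.length = m + m + m → (∀ h ∈ l, h ∈ H) →
      (l.map fun h => MonoidAlgebra.of F Γ h - 1).prod = 0) :
    Pool.Agent.N726.BG.Iso (JJ F H m) := by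
  constructor
  · intro u hu g
    rw [mem_JJ] at hu ⊢
    rw [ev_shift]
    exact aug_mul F hH (a := m) (b := 0) (Submodule.mul_mem_mul hu (of_mem_aug H g⁻¹))
  · intro u hu v hv w hw
    rw [mem_JJ] at hu hv hw
    rw [← lam_ev]
    have h1 : ev F Γ u * ev F Γ v * ev F Γ w ∈ Aug F Γ H (m + m + m) :=
      aug_mul F hH (Submodule.mul_mem_mul
        (aug_mul F hH (Submodule.mul_mem_mul hu hv)) hw)
    rw [aug_zero F hz h1, map_zero]

end ideal

theorem good_power (hC : StC) (hD : StD) (hN : StN) (p : ℕ) [Fact p.Prime] (G : Type) [Group G]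
    [Fintype G] (L : ℕ) (C : ℕ → Subgroup G) (H : Subgroup G) (hch : Chain p H (L + 1) C)
    (d : ℕ → ℕ) (hd : ∀ i < L + 1, Nat.card (C i) = p ^ d i * Nat.card (C (i + 1)))
    (hsum : 20 * ∑ i ∈ range L, (2 * p) ^ (i + 1) * d (i + 1) ≤ d 0) (κ : Type) [Fintype κ]
    [DecidableEq κ] :
    Pool.Agent.N726.BG.Good (κ → G) (Real.exp (-(d 0 : ℝ) / 25) ^ Fintype.card κ) := by
  obtain ⟨n, hn⟩ : ∃ n, n = Fintype.card κ := ⟨_, rfl⟩
  rw [← hn]
  have hch' := chain_pk (κ := κ) hch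
  have hcard' : ∀ i < L + 1, Nat.card (pk κ (C i)) =
      p ^ (n * d i) * Nat.card (pk κ (C (i + 1))) := by
    intro i hi
    rw [card_pk, card_pk, hd i hi, mul_pow, ← pow_mul, mul_comm n, hn]
  obtain ⟨S, hS⟩ : ∃ S, S = ∑ i ∈ range L, (2 * p) ^ (i + 1) * d (i + 1) := ⟨_, rfl⟩
  rw [← hS] at hsum
  obtain ⟨D, hDd⟩ : ∃ D, D = (p - 1) * (n * (d 0 + S)) := ⟨_, rfl⟩
  have hD0 : (p - 1) * ∑ i ∈ range (L + 1), (2 * p) ^ i * (n * d i) = D := by
    rw [hDd, sum_range_succ', pow_zero, one_mul, hS]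
    congr 1
    rw [mul_add, mul_sum, add_comm]
    congr 1
    refine sum_congr rfl fun i _ => ?_
    ring
  obtain ⟨m, hmd⟩ : ∃ m, m = D / 3 + 1 := ⟨_, rfl⟩
  have hDm : D < m + m + m := by omega
  have h20 : 20 * m ≤ 7 * (p - 1) * (n * d 0) + 20 := by
    have h1 : 20 * D ≤ 21 * ((p - 1) * (n * d 0)) := by
      calc 20 * D = (p - 1) * (n * (20 * d 0 + 20 * S)) := by rw [hDd]; ring
        _ ≤ (p - 1) * (n * (20 * d 0 + d 0)) := by gcongr
        _ = _ := by ring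
    have h3 : 7 * (p - 1) * (n * d 0) = 7 * ((p - 1) * (n * d 0)) := by ring
    rw [h3]
    omega
  have hHn : (pk κ H).Normal := by
    rw [← hch.1]
    exact pk_normal (hch.2.2.1 0)
  have hiso : Pool.Agent.N726.BG.Iso (JJ (ZMod p) (pk κ H) m) := by
    refine iso_JJ hHn fun l hl hlH => ?_
    exact hC p (κ → G) (pk κ H) (L + 1) _ hch' (fun i => n * d i) hcard' l hlH (by
      rw [hD0, hl]
      exact hDm)
  -- the codimension
  have hDr := hD p (κ → G) (pk κ H) (pk κ (C 1)) hHn (pk_normal (hch.2.2.1 1))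
    (pk_mono (by
      have := hch.2.2.2.1 0
      rwa [hch.1] at this))
    (pk_comm (by
      have := hch.2.2.2.2.2 0
      rwa [hch.1] at this))
    (fun h hh => mem_pk.2 fun t => by
      have := hch.2.2.2.2.1 0 (h t) (by
        rw [hch.1]
        exact mem_pk.1 hh t)
      exact this)
    (n * d 0) (by
      have := hcard' 0 (by omega)
      simpa only [hch.1] using this) m
  have hNr := hN p (n * d 0) m h20
  obtain ⟨f, hf⟩ : ∃ f, f = finrank (ZMod p) (Aug (ZMod p) (κ → G) (pk κ H) m) := ⟨_, rfl⟩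
  obtain ⟨c, hc⟩ : ∃ c, c = (univ.filter fun a : Fin (n * d 0) → Fin p =>
    ∑ k, (a k : ℕ) < m).card := ⟨_, rfl⟩
  refine ⟨ZMod p, inferInstance, JJ (ZMod p) (pk κ H) m, hiso, ?_⟩
  rw [finrank_JJ, ← hf]
  rw [← hf] at hDr
  rw [← hc] at hDr hNr
  obtain ⟨g, hg⟩ : ∃ g, g = Nat.card (κ → G) := ⟨_, rfl⟩
  rw [← Nat.card_eq_fintype_card, ← hg]
  rw [← hg] at hDr
  have hD' : (p : ℝ) ^ (n * d 0) * (g : ℝ) ≤
      (p : ℝ) ^ (n * d 0) * f + (g : ℝ) * c := by exact_mod_cast hDr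
  have hp0 : (0 : ℝ) < (p : ℝ) ^ (n * d 0) := by
    have : 0 < p := (Fact.out : p.Prime).pos
    positivity
  have h1 : (g : ℝ) * c ≤ (g : ℝ) *
      ((p : ℝ) ^ (n * d 0) * Real.exp (-((n * d 0 : ℕ) : ℝ) / 25)) :=
    mul_le_mul_of_nonneg_left hNr (by positivity)
  have h2 : (p : ℝ) ^ (n * d 0) * ((g : ℝ) - f) ≤
      (p : ℝ) ^ (n * d 0) * ((g : ℝ) * Real.exp (-((n * d 0 : ℕ) : ℝ) / 25)) := by
    nlinarith [h1, hD']
  have h3 := le_of_mul_le_mul_left h2 hp0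
  have h4 : Real.exp (-(d 0 : ℝ) / 25) ^ n = Real.exp (-((n * d 0 : ℕ) : ℝ) / 25) := by
    rw [← Real.exp_nat_mul]
    congr 1
    push_cast
    ring
  rw [h4]
  linarith

theorem stGd_of (hC : StC) (hD : StD) (hN : StN) : StGd := by
  intro p _ G _ _ L C hch d hd hsum N
  have h := good_power hC hD hN p G L C ⊤ hch d hd hsum (Fin 3 × Fin N)
  have e : Fintype.card (Fin 3 × Fin N) = 3 * N := by
    rw [Fintype.card_prod, Fintype.card_fin, Fintype.card_fin]
  rwa [e] at h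

end Pool.Agent.L0h64.Sv
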